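import Pool.Agent.Helper70.Isg.Goals2

/-!
# Packet KEY0 (MP_600500_pr): the key inequality under a strictness assumption
-/

noncomputable section

namespace Pool.Agent.Helper89.Isg

open Pool.Agent.Helper70.Isg Real

/-- the square root of `lam(J)` -/
def eta (A B C A' J : ℝ) : ℝ := exp (2 * (A - A')) * cosh (B + J + C) / cosh (B + J - C)

def DD (A B C A' B' C' J : ℝ) : ℝ :=
  cosh (2 * (B' + J + C')) - eta A B C A' J ^ 2 * cosh (2 * (B' + J - C'))

def WW (A B C A' B' C' J : ℝ) : ℝ :=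
  sinh (2 * (B' + J + C')) / eta A B C A' J - eta A B C A' J * sinh (2 * (B' + J - C'))

theorem eta_pos (A B C A' J : ℝ) : 0 < eta A B C A' J := by
  unfold eta
  have := cosh_pos (B + J + C)
  have := cosh_pos (B + J - C)
  positivity

theorem key_iff (A B C A' B' C' T J c : ℝ) :
    keyI A (B + J) C A' (B' + J) C' T c ↔
      DD A B C A' B' C' J ≤
        (exp (2 * c) * (eta A B C A' J ^ 2 * exp (-(2 * T)) - exp (2 * T)) +
          exp (-(2 * c)) * (eta A B C A' J ^ 2 * exp (2 * T) - exp (-(2 * T)))) / 2 := by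
  unfold keyI DD
  have hQ := cosh_pos (B + J - C)
  have hP := cosh_pos (B + J + C)
  have h1 : exp (4 * A) * cosh (B + J + C) ^ 2 =
      exp (4 * A') * cosh (B + J - C) ^ 2 * eta A B C A' J ^ 2 := by
    unfold eta
    rw [div_pow, mul_pow]
    have : exp (2 * (A - A')) ^ 2 * exp (4 * A') = exp (4 * A) := by
      rw [← exp_nat_mul, ← exp_add]; congr 1; push_cast; ring
    field_simp
    rw [← this]; ring
  have h2 : cosh (2 * (c + T)) = (exp (2 * c) * exp (2 * T) + exp (-(2 * c)) * exp (-(2 * T))) / 2 := by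
    rw [cosh_eq, ← exp_add, ← exp_add]; congr 3 <;> ring_nf
  have h3 : cosh (2 * (c - T)) = (exp (2 * c) * exp (-(2 * T)) + exp (-(2 * c)) * exp (2 * T)) / 2 := by
    rw [cosh_eq, ← exp_add, ← exp_add]; congr 3 <;> ring_nf
  have hK : 0 < exp (4 * A') * cosh (B + J - C) ^ 2 := by positivity
  generalize eta A B C A' J = e at *
  generalize cosh (2 * (B' + J + C')) = X1 at *
  generalize cosh (2 * (B' + J - C')) = Y1 at *
  have e1 : exp (4 * A) * (Y1 + cosh (2 * (c - T))) * cosh (B + J + C) ^ 2 =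
      (exp (4 * A') * cosh (B + J - C) ^ 2) * (e ^ 2 * (Y1 + cosh (2 * (c - T)))) := by
    have : exp (4 * A) * (Y1 + cosh (2 * (c - T))) * cosh (B + J + C) ^ 2 =
      (exp (4 * A) * cosh (B + J + C) ^ 2) * (Y1 + cosh (2 * (c - T))) := by ring
    rw [this, h1]; ring
  have e2 : exp (4 * A') * (X1 + cosh (2 * (c + T))) * cosh (B + J - C) ^ 2 =
      (exp (4 * A') * cosh (B + J - C) ^ 2) * (X1 + cosh (2 * (c + T))) := by ring
  rw [e1, e2, mul_le_mul_iff_right₀ hK, h2, h3]
  constructor <;> intro h <;> linarith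

theorem eta_mono (A B C A' J : ℝ) (hC : 0 ≤ C) (hJ : 0 ≤ J) :
    eta A B C A' 0 ≤ eta A B C A' J := by
  unfold eta
  have h1 := cosh_pos (B + 0 - C)
  have h2 := cosh_pos (B + J - C)
  rw [div_le_div_iff₀ h1 h2, mul_assoc, mul_assoc]
  apply mul_le_mul_of_nonneg_left _ (exp_pos _).le
  have e1 : cosh (B + 0 + C) * cosh (B + J - C) = (cosh (J + 2 * B) + cosh (2 * C - J)) / 2 := by
    have t1 := cosh_add (B + 0 + C) (B + J - C)
    have t2 := cosh_sub (B + 0 + C) (B + J - C)
    have e3 : B + 0 + C + (B + J - C) = J + 2 * B := by ring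
    have e4 : B + 0 + C - (B + J - C) = 2 * C - J := by ring
    rw [e3] at t1; rw [e4] at t2
    linarith
  have e2 : cosh (B + J + C) * cosh (B + 0 - C) = (cosh (J + 2 * B) + cosh (J + 2 * C)) / 2 := by
    have t1 := cosh_add (B + J + C) (B + 0 - C)
    have t2 := cosh_sub (B + J + C) (B + 0 - C)
    have e3 : B + J + C + (B + 0 - C) = J + 2 * B := by ring
    have e4 : B + J + C - (B + 0 - C) = J + 2 * C := by ring
    rw [e3] at t1; rw [e4] at t2
    linarith
  rw [e1, e2]
  have : cosh (2 * C - J) ≤ cosh (J + 2 * C) := by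
    rw [cosh_le_cosh]
    rw [abs_le]
    constructor
    · have := le_abs_self (J + 2 * C); linarith
    · have := le_abs_self (J + 2 * C); linarith
  linarith

/-- the basic identity -/
theorem ident (A B C A' B' C' T J : ℝ) :
    (eta A B C A' J ^ 2 * exp (-(2 * T)) - exp (2 * T)) *
        (eta A B C A' J ^ 2 * exp (2 * T) - exp (-(2 * T))) - DD A B C A' B' C' J ^ 2 =
      eta A B C A' J ^ 2 * (2 * (cosh (4 * C') - cosh (4 * T)) - WW A B C A' B' C' J ^ 2) := by
  have he := eta_pos A B C A' J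
  unfold DD WW
  generalize eta A B C A' J = e at *
  have h4 : cosh (4 * C') = cosh (2 * (B' + J + C')) * cosh (2 * (B' + J - C')) -
      sinh (2 * (B' + J + C')) * sinh (2 * (B' + J - C')) := by
    rw [← cosh_sub]; congr 1; ring
  have h5 : cosh (4 * T) = (exp (2 * T) ^ 2 + exp (-(2 * T)) ^ 2) / 2 := by
    rw [cosh_eq, ← exp_nat_mul, ← exp_nat_mul]; congr 3 <;> (push_cast; ring)
  have h6 : exp (2 * T) * exp (-(2 * T)) = 1 := by rw [← exp_add]; simp
  have hX := cosh_sq (2 * (B' + J + C'))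
  have hY := cosh_sq (2 * (B' + J - C'))
  rw [h4, h5]
  generalize cosh (2 * (B' + J + C')) = X1 at *
  generalize cosh (2 * (B' + J - C')) = Y1 at *
  generalize sinh (2 * (B' + J + C')) = X2 at *
  generalize sinh (2 * (B' + J - C')) = Y2 at *
  generalize exp (2 * T) = a at *
  generalize exp (-(2 * T)) = b at *
  have e1 : e ^ 2 * (X2 / e - e * Y2) ^ 2 = (X2 - e ^ 2 * Y2) ^ 2 := by
    field_simp
  have e2 : e ^ 2 * (2 * ((X1 * Y1 - X2 * Y2) - (a ^ 2 + b ^ 2) / 2) - (X2 / e - e * Y2) ^ 2) =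
      e ^ 2 * (2 * ((X1 * Y1 - X2 * Y2) - (a ^ 2 + b ^ 2) / 2)) - (X2 - e ^ 2 * Y2) ^ 2 := by
    rw [← e1]; ring
  rw [e2]
  linear_combination (e ^ 4 + 1 ) * h6 - hX - e ^ 4 * hY

/-- `Q(e^(2J))` -/
theorem identQ (A B C A' B' C' M J : ℝ) :
    ∑ k ∈ Finset.Icc (-2 : ℤ) 2, qc A B C A' B' C' M k * (exp (2 * J)) ^ k =
      (WW A B C A' B' C' J - M) * (2 * cosh (B + J + C) * cosh (B + J - C)) := by
  have hI : Finset.Icc (-2 : ℤ) 2 = {-2, -1, 0, 1, 2} := by decide
  rw [hI]
  have hP := cosh_pos (B + J + C)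
  have hQ := cosh_pos (B + J - C)
  rw [Finset.sum_insert (by decide), Finset.sum_insert (by decide), Finset.sum_insert (by decide),
    Finset.sum_insert (by decide), Finset.sum_singleton]
  have eW : WW A B C A' B' C' J * (2 * cosh (B + J + C) * cosh (B + J - C)) =
      2 * (exp (-(2 * (A - A'))) * sinh (2 * (B' + J + C')) * cosh (B + J - C) ^ 2 -
        exp (2 * (A - A')) * sinh (2 * (B' + J - C')) * cosh (B + J + C) ^ 2) := by
    unfold WW eta
    rw [exp_neg]
    have h0 := (exp_pos (2 * (A - A'))).ne'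
    field_simp
  rw [sub_mul, eW]
  simp only [qc]
  norm_num
  have hA := (exp_pos (A - A')).ne'
  have hB := (exp_pos B).ne'
  have hC := (exp_pos C).ne'
  have hB' := (exp_pos B').ne'
  have hC' := (exp_pos C').ne'
  have hJ := (exp_pos J).ne'
  have f1 : exp (2 * (B + B')) = exp B ^ 2 * exp B' ^ 2 := by
    rw [← exp_nat_mul, ← exp_nat_mul, ← exp_add]; congr 1; push_cast; ring
  have f2 : exp (2 * (C - C' - (A - A'))) = exp C ^ 2 / exp C' ^ 2 / exp (A - A') ^ 2 := by
    rw [← exp_nat_mul, ← exp_nat_mul, ← exp_nat_mul, ← exp_sub, ← exp_sub]; congr 1; push_cast; ring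
  have f3 : exp (2 * J) = exp J ^ 2 := by
    rw [← exp_nat_mul]; congr 1
  have f4 : exp (2 * B') = exp B' ^ 2 := by
    rw [← exp_nat_mul]; congr 1
  have f5 : exp (2 * B) = exp B ^ 2 := by
    rw [← exp_nat_mul]; congr 1
  have f6 : exp (2 * (C' + (A - A'))) = exp C' ^ 2 * exp (A - A') ^ 2 := by
    rw [← exp_nat_mul, ← exp_nat_mul, ← exp_add]; congr 1; push_cast; ring
  have f7 : exp (2 * (A - A')) = exp (A - A') ^ 2 := by
    rw [← exp_nat_mul]; congr 1
  have f8 : exp (2 * (C + C' - (B - B'))) = exp C ^ 2 * exp C' ^ 2 / exp B ^ 2 * exp B' ^ 2 := by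
    rw [← exp_nat_mul, ← exp_nat_mul, ← exp_nat_mul, ← exp_nat_mul, ← exp_add, ← exp_sub, ← exp_add]
    congr 1; push_cast; ring
  have f9 : exp (2 * (C + C' + (B - B'))) = exp C ^ 2 * exp C' ^ 2 * exp B ^ 2 / exp B' ^ 2 := by
    rw [← exp_nat_mul, ← exp_nat_mul, ← exp_nat_mul, ← exp_nat_mul, ← exp_add, ← exp_add, ← exp_sub]
    congr 1; push_cast; ring
  have f10 : exp (2 * C) = exp C ^ 2 := by
    rw [← exp_nat_mul]; congr 1
  have f11 : exp (2 * (C' - (A - A'))) = exp C' ^ 2 / exp (A - A') ^ 2 := by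
    rw [← exp_nat_mul, ← exp_nat_mul, ← exp_sub]; congr 1; push_cast; ring
  have f12 : exp (2 * (A - A' + (C - C'))) = exp (A - A') ^ 2 * exp C ^ 2 / exp C' ^ 2 := by
    rw [← exp_nat_mul, ← exp_nat_mul, ← exp_nat_mul, ← exp_add, ← exp_sub]; congr 1; push_cast; ring
  have f13 : exp (2 * (B' + J + C')) = exp B' ^ 2 * exp J ^ 2 * exp C' ^ 2 := by
    rw [← exp_nat_mul, ← exp_nat_mul, ← exp_nat_mul, ← exp_add, ← exp_add]; congr 1; push_cast; ring
  have f14 : exp (2 * (B' + J - C')) = exp B' ^ 2 * exp J ^ 2 / exp C' ^ 2 := by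
    rw [← exp_nat_mul, ← exp_nat_mul, ← exp_nat_mul, ← exp_add, ← exp_sub]; congr 1; push_cast; ring
  have f15 : exp (B + J + C) = exp B * exp J * exp C := by
    rw [← exp_add, ← exp_add]
  have f16 : exp (B + J - C) = exp B * exp J / exp C := by
    rw [← exp_add, ← exp_sub]
  simp only [sinh_eq, cosh_eq, exp_neg, f1, f2, f3, f4, f5, f6, f7, f8, f9, f10, f11, f12, f13, f14,
    f15, f16]
  generalize exp (A - A') = a at *
  generalize exp B = b at *
  generalize exp C = c at *
  generalize exp B' = b' at *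
  generalize exp C' = c' at *
  generalize exp J = j at *
  clear f1 f2 f3 f4 f5 f6 f7 f8 f9 f10 f11 f12 f13 f14 f15 f16 eW hP hQ
  field_simp
  ring

theorem PN_pos (e T : ℝ) (h : exp (4 * |T|) < e ^ 2) :
    0 < e ^ 2 * exp (-(2 * T)) - exp (2 * T) ∧ 0 < e ^ 2 * exp (2 * T) - exp (-(2 * T)) := by
  have a1 : exp (2 * T) ≤ exp (4 * |T|) * exp (-(2 * T)) := by
    rw [← exp_add]; apply exp_le_exp.2
    have := le_abs_self T; linarith
  have a2 : exp (-(2 * T)) ≤ exp (4 * |T|) * exp (2 * T) := by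
    rw [← exp_add]; apply exp_le_exp.2
    have := neg_abs_le T; linarith
  have a3 := mul_lt_mul_of_pos_right h (exp_pos (-(2 * T)))
  have a4 := mul_lt_mul_of_pos_right h (exp_pos (2 * T))
  constructor <;> linarith

theorem good_le (A B C A' B' C' T J : ℝ) (he : exp (4 * |T|) < eta A B C A' J ^ 2)
    (hk : ∀ c, keyI A (B + J) C A' (B' + J) C' T c) (hD : 0 ≤ DD A B C A' B' C' J) :
    WW A B C A' B' C' J ^ 2 ≤ 2 * (cosh (4 * C') - cosh (4 * T)) := by
  obtain ⟨hP, hN⟩ := PN_pos _ T he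
  have hid := ident A B C A' B' C' T J
  have he0 := eta_pos A B C A' J
  set P := eta A B C A' J ^ 2 * exp (-(2 * T)) - exp (2 * T) with hPd
  set N := eta A B C A' J ^ 2 * exp (2 * T) - exp (-(2 * T)) with hNd
  have hu : 0 < sqrt (N / P) := sqrt_pos.2 (div_pos hN hP)
  have hu2 : sqrt (N / P) ^ 2 = N / P := sq_sqrt (div_pos hN hP).le
  have h := (key_iff A B C A' B' C' T J (log (sqrt (N / P)) / 2)).1 (hk _)
  rw [← hPd, ← hNd] at h
  have e1 : exp (2 * (log (sqrt (N / P)) / 2)) = sqrt (N / P) := by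
    rw [mul_div_cancel₀ _ (two_ne_zero), exp_log hu]
  have e2 : exp (-(2 * (log (sqrt (N / P)) / 2))) = (sqrt (N / P))⁻¹ := by
    rw [exp_neg, e1]
  rw [e1, e2] at h
  generalize sqrt (N / P) = u at *
  have h3 : u ^ 2 * P = N := by rw [hu2]; field_simp
  have h4 : u⁻¹ * N = u * P := by rw [← h3]; field_simp
  rw [h4] at h
  have h5 : DD A B C A' B' C' J ≤ u * P := by linarith
  have h6 : DD A B C A' B' C' J ^ 2 ≤ (u * P) ^ 2 := pow_le_pow_left₀ hD h5 2
  have h7 : (u * P) ^ 2 = P * N := by rw [← h3]; ring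
  have h8 : 0 ≤ eta A B C A' J ^ 2 *
      (2 * (cosh (4 * C') - cosh (4 * T)) - WW A B C A' B' C' J ^ 2) := by
    rw [← hid]; linarith
  have h9 := nonneg_of_mul_nonneg_right h8 (pow_pos he0 2)
  linarith

theorem bad_gt (A B C A' B' C' T J c : ℝ) (he : exp (4 * |T|) < eta A B C A' J ^ 2)
    (hk : ¬ keyI A (B + J) C A' (B' + J) C' T c) :
    0 < DD A B C A' B' C' J ∧
      2 * (cosh (4 * C') - cosh (4 * T)) < WW A B C A' B' C' J ^ 2 := by
  obtain ⟨hP, hN⟩ := PN_pos _ T he
  have hid := ident A B C A' B' C' T J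
  have he0 := eta_pos A B C A' J
  rw [key_iff, not_le] at hk
  set P := eta A B C A' J ^ 2 * exp (-(2 * T)) - exp (2 * T) with hPd
  set N := eta A B C A' J ^ 2 * exp (2 * T) - exp (-(2 * T)) with hNd
  have e1 : exp (2 * c) * exp (-(2 * c)) = 1 := by rw [← exp_add]; simp
  have h1 := exp_pos (2 * c)
  have h2 := exp_pos (-(2 * c))
  generalize exp (2 * c) = u at *
  generalize exp (-(2 * c)) = v at *
  have h3 : 0 < (u * P + v * N) / 2 := by positivity
  refine ⟨h3.trans hk, ?_⟩
  have h4 : ((u * P + v * N) / 2) ^ 2 < DD A B C A' B' C' J ^ 2 :=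
    pow_lt_pow_left₀ hk h3.le two_ne_zero
  have h5 : P * N ≤ ((u * P + v * N) / 2) ^ 2 := by
    have : P * N = (u * P) * (v * N) := by linear_combination (-(P * N)) * e1
    rw [this]
    nlinarith [sq_nonneg (u * P - v * N)]
  have h8 : eta A B C A' J ^ 2 *
      (2 * (cosh (4 * C') - cosh (4 * T)) - WW A B C A' B' C' J ^ 2) < 0 := by
    rw [← hid]; linarith
  have h9 := (mul_neg_iff.1 h8)
  rcases h9 with h | h
  · linarith [h.2]
  · exact absurd h.1 (not_lt.2 (pow_pos he0 2).le)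

theorem cont_DD (A B C A' B' C' : ℝ) : Continuous (DD A B C A' B' C') := by
  unfold DD eta
  have h : ∀ J : ℝ, cosh (B + J - C) ≠ 0 := fun J => (cosh_pos _).ne'
  fun_prop (disch := first | exact h | assumption)

theorem pf_KEY0 (hPo : S_POSY) (hSi : S_SIGN) : S_KEY0 := by
  intro A B C A' B' C' T J hB hC hTB hTC h1 h2 h3 hst hk hJ
  by_contra hcon
  push Not at hcon
  obtain ⟨c, hc⟩ := hcon
  have hB' : 0 ≤ B' := (abs_nonneg T).trans hTB
  have hC' : 0 ≤ C' := (abs_nonneg T).trans hTC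
  -- eta
  have he0 : exp (4 * |T|) < eta A B C A' 0 ^ 2 := by
    unfold eta
    rw [add_zero, div_pow, mul_pow, lt_div_iff₀ (pow_pos (cosh_pos _) 2)]
    have e1 : exp (2 * (A - A')) ^ 2 * exp (4 * A') = exp (4 * A) := by
      rw [← exp_nat_mul, ← exp_add]; congr 1; push_cast; ring
    rw [← e1] at hst
    have h4 := exp_pos (4 * A')
    by_contra hcon
    push Not at hcon
    have := mul_le_mul_of_nonneg_left hcon h4.le
    linarith
  have heJ : ∀ J : ℝ, 0 ≤ J → exp (4 * |T|) < eta A B C A' J ^ 2 := fun J hJ =>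
    he0.trans_le (pow_le_pow_left₀ (eta_pos _ _ _ _ _).le (eta_mono A B C A' J hC hJ) 2)
  have hone : (1 : ℝ) ≤ exp (4 * |T|) := one_le_exp (by positivity)
  obtain ⟨hD, hW⟩ := bad_gt A B C A' B' C' T J c (heJ J hJ) hc
  -- W(J) > 0
  have hWpos : 0 < WW A B C A' B' C' J := by
    have he := eta_pos A B C A' J
    have h5 := (hone.trans_lt (heJ J hJ)).le
    unfold DD at hD
    unfold WW
    have hX : 0 ≤ sinh (2 * (B' + J + C')) := sinh_nonneg_iff.2 (by positivity)
    have hX2 := cosh_sq (2 * (B' + J + C'))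
    have hY2 := cosh_sq (2 * (B' + J - C'))
    have hYp := cosh_pos (2 * (B' + J - C'))
    generalize eta A B C A' J = e at *
    generalize cosh (2 * (B' + J + C')) = X1 at *
    generalize cosh (2 * (B' + J - C')) = Y1 at *
    generalize sinh (2 * (B' + J + C')) = X2 at *
    generalize sinh (2 * (B' + J - C')) = Y2 at *
    have h6 : (e ^ 2 * Y1) ^ 2 < X1 ^ 2 :=
      pow_lt_pow_left₀ (by linarith) (by positivity) two_ne_zero
    have h7 : (1 : ℝ) ≤ (e ^ 2) ^ 2 := one_le_pow₀ h5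
    have h8 : (e ^ 2 * Y2) ^ 2 < X2 ^ 2 := by nlinarith
    have h9 : |e ^ 2 * Y2| < |X2| := sq_lt_sq.1 h8
    rw [abs_of_nonneg hX] at h9
    have h10 := (abs_lt.1 h9).2
    have : X2 / e - e * Y2 = (X2 - e ^ 2 * Y2) / e := by field_simp
    rw [this]
    apply div_pos _ he
    linarith
  -- the number M
  have hM2 : 0 ≤ 2 * (cosh (4 * C') - cosh (4 * T)) := by
    have : cosh (4 * T) ≤ cosh (4 * C') := by
      rw [cosh_le_cosh, abs_mul, abs_mul, abs_of_nonneg hC']
      exact mul_le_mul_of_nonneg_left hTC (abs_nonneg _)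
    linarith
  set M := sqrt (2 * (cosh (4 * C') - cosh (4 * T))) with hMd
  have hM0 : 0 ≤ M := sqrt_nonneg _
  have hMsq : M ^ 2 = 2 * (cosh (4 * C') - cosh (4 * T)) := sq_sqrt hM2
  have hsC : 0 ≤ sinh (2 * C') := sinh_nonneg_iff.2 (by positivity)
  have hMle : M ≤ 2 * sinh (2 * C') := by
    have e1 : cosh (4 * C') = 1 + 2 * sinh (2 * C') ^ 2 := by
      have := cosh_two_mul (2 * C')
      have h2 := cosh_sq (2 * C')
      have e : 2 * (2 * C') = 4 * C' := by ring
      rw [e] at this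
      linarith
    have e2 := one_le_cosh (4 * T)
    have : M ^ 2 ≤ (2 * sinh (2 * C')) ^ 2 := by rw [hMsq, e1]; nlinarith
    exact (pow_le_pow_iff_left₀ hM0 (by positivity) two_ne_zero).1 this
  have hWJ : M < WW A B C A' B' C' J := by
    rw [← hMsq] at hW
    exact (pow_lt_pow_iff_left₀ hM0 hWpos.le two_ne_zero).1 hW
  -- the point Ja
  have hJa : ∃ a, 0 ≤ a ∧ a < J ∧ WW A B C A' B' C' a ^ 2 ≤ M ^ 2 := by
    rw [hMsq]
    rcases le_or_gt (DD A B C A' B' C' 0) 0 with h0 | h0
    · have hI := intermediate_value_Icc hJ (cont_DD A B C A' B' C').continuousOn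
      obtain ⟨a, ha, ha2⟩ := hI ⟨h0, hD.le⟩
      refine ⟨a, ha.1, lt_of_le_of_ne ha.2 ?_, ?_⟩
      · rintro rfl; linarith
      · have hid := ident A B C A' B' C' T a
        obtain ⟨hP, hN⟩ := PN_pos _ T (heJ a ha.1)
        have hpn := mul_pos hP hN
        have he := eta_pos A B C A' a
        rw [ha2] at hid
        have h8 : 0 ≤ eta A B C A' a ^ 2 *
            (2 * (cosh (4 * C') - cosh (4 * T)) - WW A B C A' B' C' a ^ 2) := by
          rw [← hid]; linarith
        have h9 := nonneg_of_mul_nonneg_right h8 (pow_pos he 2)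
        linarith
    · refine ⟨0, le_rfl, ?_, ?_⟩
      · rcases hJ.lt_or_eq with h | h
        · exact h
        · exfalso
          rw [← h] at hc
          apply hc
          have := hk c
          rwa [add_zero, add_zero]
      · apply good_le A B C A' B' C' T 0 he0 _ h0.le
        intro c
        have := hk c
        rwa [add_zero, add_zero]
  obtain ⟨a, ha0, haJ, haW⟩ := hJa
  have haM : WW A B C A' B' C' a ≤ M := (le_abs_self _).trans (abs_le_of_sq_le_sq haW hM0)
  have hQa : ∑ k ∈ Finset.Icc (-2 : ℤ) 2, qc A B C A' B' C' M k * (exp (2 * a)) ^ k ≤ 0 := by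
    rw [identQ]
    have := cosh_pos (B + a + C)
    have := cosh_pos (B + a - C)
    exact mul_nonpos_of_nonpos_of_nonneg (by linarith) (by positivity)
  have hQJ : 0 < ∑ k ∈ Finset.Icc (-2 : ℤ) 2, qc A B C A' B' C' M k * (exp (2 * J)) ^ k := by
    rw [identQ]
    have := cosh_pos (B + J + C)
    have := cosh_pos (B + J - C)
    exact mul_pos (by linarith) (by positivity)
  rcases lt_or_ge (-B') a with hlt | hge
  · have hWh : M ≤ WW A B C A' B' C' (-B') := by
      unfold WW
      have he := eta_pos A B C A' (-B')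
      have e1 : 2 * (B' + -B' + C') = 2 * C' := by ring
      have e2 : 2 * (B' + -B' - C') = -(2 * C') := by ring
      rw [e1, e2, sinh_neg]
      generalize eta A B C A' (-B') = e at *
      have h5 : 2 ≤ 1 / e + e := by
        rw [div_add' _ _ _ he.ne', le_div_iff₀ he]
        nlinarith [sq_nonneg (e - 1)]
      have h6 : sinh (2 * C') / e - e * -sinh (2 * C') = sinh (2 * C') * (1 / e + e) := by
        field_simp; ring
      rw [h6]
      nlinarith
    have hQh : 0 ≤ ∑ k ∈ Finset.Icc (-2 : ℤ) 2, qc A B C A' B' C' M k * (exp (2 * (-B'))) ^ k := by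
      rw [identQ]
      have := cosh_pos (B + -B' + C)
      have := cosh_pos (B + -B' - C)
      exact mul_nonneg (by linarith) (by positivity)
    obtain ⟨k₁, k₂, hk12, hq1, hq2⟩ := hSi A B C A' B' C' M hC hC' hM0 hMle h1 h2 h3
    have := hPo (qc A B C A' B' C' M) k₁ k₂ (exp (2 * (-B'))) (exp (2 * a)) (exp (2 * J)) hk12 hq1
      hq2 (exp_pos _) (exp_lt_exp.2 (by linarith)) (exp_lt_exp.2 (by linarith)) hQh hQJ
    linarith
  · have hB0 : B' = 0 := by linarith
    have ha00 : a = 0 := by linarith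
    have hT0 : T = 0 := by
      rw [hB0] at hTB
      exact abs_nonpos_iff.1 hTB
    have heta : 1 < eta A B C A' 0 := by
      have h5 := (hone.trans_lt he0)
      have he := eta_pos A B C A' 0
      nlinarith
    rcases hC'.lt_or_eq with hCp | hC0
    · have hs : 0 < sinh (2 * C') := sinh_pos_iff.2 (by positivity)
      rw [ha00] at haM
      unfold WW at haM
      rw [hB0] at haM
      have e1 : 2 * ((0 : ℝ) + 0 + C') = 2 * C' := by ring
      have e2 : 2 * ((0 : ℝ) + 0 - C') = -(2 * C') := by ring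
      rw [e1, e2, sinh_neg] at haM
      generalize eta A B C A' 0 = e at *
      have he : 0 < e := by linarith
      have h6 : sinh (2 * C') / e - e * -sinh (2 * C') = sinh (2 * C') * (1 / e + e) := by
        field_simp; ring
      rw [h6] at haM
      have h5 : 2 < 1 / e + e := by
        rw [div_add' _ _ _ he.ne', lt_div_iff₀ he]
        nlinarith [sq_pos_of_pos (sub_pos.2 heta)]
      nlinarith
    · unfold DD at hD
      rw [← hC0] at hD
      have e1 : 2 * (B' + J + 0) = 2 * (B' + J - 0) := by ring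
      rw [e1] at hD
      have h5 := (hone.trans_lt (heJ J hJ))
      have h6 := cosh_pos (2 * (B' + J - 0))
      nlinarith

end Pool.Agent.Helper89.Isg
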